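import Pool.Agent.Lib_helper52.YG.Defs
import Pool.Agent.Lib_helper73.YG.S6
import Pool.Agent.Lib_helper83.EPS.B1

set_option autoImplicit false

namespace Pool.Agent.YG

open MeasureTheory ENNReal Set Filter Topology Pool.Agent.EPS

theorem s7_meas {a b m M : ℝ} {F : ℝ → ℝ} (h : Nice a b m M F) : Measurable F := by
  classical
  have e : F = (Icc a b).piecewise F (fun _ => 0) := by
    funext x
    by_cases hx : x ∈ Icc a b
    · rw [Set.piecewise_eq_of_mem _ _ _ hx]
    · rw [Set.piecewise_eq_of_notMem _ _ _ hx]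
      exact h.off x hx
  rw [e]
  exact ContinuousOn.measurable_piecewise h.cont continuousOn_const measurableSet_Icc

theorem s7_cont {c : ℝ} : Continuous fun t : ℝ => ENNReal.ofReal t ^ c :=
  ENNReal.continuous_rpow_const.comp ENNReal.continuous_ofReal

theorem s7_top {c : ℝ} (hc : 0 < c) (t : ℝ) : ENNReal.ofReal t ^ c ≠ ⊤ :=
  ENNReal.rpow_ne_top_of_nonneg hc.le ENNReal.ofReal_ne_top

/-- the sharp Young inequality for bounded probability densities with compact support -/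
theorem young_bdc {c1 c2 c3 : ℝ} (h : Wt c1 c2 c3) {f g k : ℝ → ℝ} (hf : Bdc f) (hg : Bdc g)
    (hk : Bdc k) (f1 : ∫ x, f x = 1) (g1 : ∫ x, g x = 1) (k1 : ∫ x, k x = 1) :
    ∫⁻ p : ℝ × ℝ, ENNReal.ofReal (f p.1) ^ c1 * ENNReal.ofReal (g p.2) ^ c2 *
      ENNReal.ofReal (k (p.1 + p.2)) ^ c3 ≤ ENNReal.ofReal (Kc c1 c2 c3) := by
  obtain ⟨R1, M1, m1, F, hF, hFl⟩ := approx hf f1
  obtain ⟨R2, M2, m2, G, hG, hGl⟩ := approx hg g1
  obtain ⟨R3, M3, m3, K, hK, hKl⟩ := approx hk k1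
  have q1 : ∀ᵐ p : ℝ × ℝ, Tendsto (fun n => F n p.1) atTop (𝓝 (f p.1)) :=
    (Measure.quasiMeasurePreserving_fst (μ := (volume : Measure ℝ))
      (ν := (volume : Measure ℝ))).ae hFl
  have q2 : ∀ᵐ p : ℝ × ℝ, Tendsto (fun n => G n p.2) atTop (𝓝 (g p.2)) :=
    (Measure.quasiMeasurePreserving_snd (μ := (volume : Measure ℝ))
      (ν := (volume : Measure ℝ))).ae hGl
  have q3 : ∀ᵐ p : ℝ × ℝ, Tendsto (fun n => K n (p.1 + p.2)) atTop (𝓝 (k (p.1 + p.2))) :=
    ((Measure.quasiMeasurePreserving_snd (μ := (volume : Measure ℝ))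
      (ν := (volume : Measure ℝ))).comp
      (measurePreserving_prod_add (volume : Measure ℝ) volume).quasiMeasurePreserving).ae hKl
  have mF : ∀ n, Measurable (F n) := fun n => s7_meas (hF n)
  have mG : ∀ n, Measurable (G n) := fun n => s7_meas (hG n)
  have mK : ∀ n, Measurable (K n) := fun n => s7_meas (hK n)
  have e1 : ∫⁻ p : ℝ × ℝ, ENNReal.ofReal (f p.1) ^ c1 * ENNReal.ofReal (g p.2) ^ c2 *
      ENNReal.ofReal (k (p.1 + p.2)) ^ c3 =
      ∫⁻ p : ℝ × ℝ, liminf (fun n => ENNReal.ofReal (F n p.1) ^ c1 *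
        ENNReal.ofReal (G n p.2) ^ c2 * ENNReal.ofReal (K n (p.1 + p.2)) ^ c3) atTop := by
    apply lintegral_congr_ae
    filter_upwards [q1, q2, q3] with p p1 p2 p3
    refine (Tendsto.liminf_eq ?_).symm
    refine ENNReal.Tendsto.mul (ENNReal.Tendsto.mul ?_ (Or.inr (s7_top h.a2 _)) ?_
      (Or.inr (s7_top h.a1 _))) (Or.inr (s7_top h.a3 _)) ?_ (Or.inr ?_)
    · exact (s7_cont.tendsto _).comp p1
    · exact (s7_cont.tendsto _).comp p2
    · exact (s7_cont.tendsto _).comp p3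
    · exact ENNReal.mul_ne_top (s7_top h.a1 _) (s7_top h.a2 _)
  rw [e1]
  refine (lintegral_liminf_le ?_).trans ?_
  · intro n
    have t1 := s7_cont (c := c1)
    have t2 := s7_cont (c := c2)
    have t3 := s7_cont (c := c3)
    exact ((t1.measurable.comp ((mF n).comp measurable_fst)).mul
      (t2.measurable.comp ((mG n).comp measurable_snd))).mul
      (t3.measurable.comp ((mK n).comp (measurable_fst.add measurable_snd)))
  · refine liminf_le_of_frequently_le' (Frequently.of_forall fun n => ?_)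
    exact young_nice h (hF n) (hG n) (hK n)

end Pool.Agent.YG
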