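import Pool.Agent.Lib_helper52.YG.Defs
import Pool.Agent.Lib_helper37.YG.S7

set_option autoImplicit false

namespace Pool.Agent.YG

open MeasureTheory ENNReal Set Filter Topology Pool.Agent.EPS

theorem s8_top {c : ℝ} (hc : 0 < c) {t : ℝ≥0∞} (ht : t ≠ ⊤) : t ^ c ≠ ⊤ :=
  ENNReal.rpow_ne_top_of_nonneg hc.le ht

theorem s8_int {u : ℝ → ℝ} (hu : Bdc u) : Integrable u := by
  obtain ⟨K, hK, hK0⟩ := hu.supp
  obtain ⟨M, hM⟩ := hu.bd
  have h1 : IntegrableOn u K := by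
    refine Measure.integrableOn_of_bounded (M := M) hK.measure_lt_top.ne
      hu.meas.aestronglyMeasurable ?_
    filter_upwards with x
    rw [Real.norm_eq_abs, abs_of_nonneg (hu.nn x)]
    exact hM x
  rw [← integrableOn_univ]
  exact h1.of_forall_sdiff_eq_zero MeasurableSet.univ (fun x hx => hK0 x hx.2)

/-- normalisation -/
theorem s8_norm {u : ℝ → ℝ} (hu : Bdc u) (h0 : 0 < ∫ x, u x) :
    Bdc (fun x => u x / ∫ x, u x) ∧ (∫ x, u x / ∫ x, u x) = 1 := by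
  refine ⟨⟨hu.meas.div_const _, fun x => div_nonneg (hu.nn x) h0.le, ?_, ?_⟩, ?_⟩
  · obtain ⟨M, hM⟩ := hu.bd
    exact ⟨M / ∫ x, u x, fun x => div_le_div_of_nonneg_right (hM x) h0.le⟩
  · obtain ⟨K, hK, hK0⟩ := hu.supp
    exact ⟨K, hK, fun x hx => by rw [hK0 x hx, zero_div]⟩
  · rw [integral_div, div_self h0.ne']

theorem s8_scale {c U : ℝ} (hc : 0 < c) (hU : 0 < U) (t : ℝ) :
    ENNReal.ofReal t ^ c = ENNReal.ofReal U ^ c * ENNReal.ofReal (t / U) ^ c := by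
  rw [← ENNReal.mul_rpow_of_nonneg _ _ hc.le, ← ENNReal.ofReal_mul hU.le, mul_div_cancel₀ _ hU.ne']

/-- the inequality without normalisation -/
theorem s8_bdc {c1 c2 c3 : ℝ} (h : Wt c1 c2 c3) {f g k : ℝ → ℝ} (hf : Bdc f) (hg : Bdc g)
    (hk : Bdc k) :
    ∫⁻ p : ℝ × ℝ, ENNReal.ofReal (f p.1) ^ c1 * ENNReal.ofReal (g p.2) ^ c2 *
      ENNReal.ofReal (k (p.1 + p.2)) ^ c3 ≤ ENNReal.ofReal (Kc c1 c2 c3) *
        (ENNReal.ofReal (∫ x, f x) ^ c1 * ENNReal.ofReal (∫ x, g x) ^ c2 *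
          ENNReal.ofReal (∫ x, k x) ^ c3) := by
  have z : ∀ {u : ℝ → ℝ}, Bdc u → ¬ 0 < ∫ x, u x → ∀ᵐ x, u x = 0 := by
    intro u hu h0
    have h1 : ∫ x, u x = 0 :=
      le_antisymm (not_lt.1 h0) (integral_nonneg fun x => hu.nn x)
    have h2 := (integral_eq_zero_iff_of_nonneg (fun x => hu.nn x) (s8_int hu)).1 h1
    exact h2
  by_cases hf0 : 0 < ∫ x, f x
  swap
  · have h1 : ∀ᵐ p : ℝ × ℝ, f p.1 = 0 :=
      (Measure.quasiMeasurePreserving_fst (μ := (volume : Measure ℝ))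
        (ν := (volume : Measure ℝ))).ae (z hf hf0)
    rw [lintegral_congr_ae (g := fun _ => 0) (by
      filter_upwards [h1] with p hp
      rw [hp, ENNReal.ofReal_zero, ENNReal.zero_rpow_of_pos h.a1, zero_mul, zero_mul]),
      lintegral_zero]
    exact zero_le
  by_cases hg0 : 0 < ∫ x, g x
  swap
  · have h1 : ∀ᵐ p : ℝ × ℝ, g p.2 = 0 :=
      (Measure.quasiMeasurePreserving_snd (μ := (volume : Measure ℝ))
        (ν := (volume : Measure ℝ))).ae (z hg hg0)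
    rw [lintegral_congr_ae (g := fun _ => 0) (by
      filter_upwards [h1] with p hp
      rw [hp, ENNReal.ofReal_zero, ENNReal.zero_rpow_of_pos h.a2, mul_zero, zero_mul]),
      lintegral_zero]
    exact zero_le
  by_cases hk0 : 0 < ∫ x, k x
  swap
  · have h1 : ∀ᵐ p : ℝ × ℝ, k (p.1 + p.2) = 0 :=
      ((Measure.quasiMeasurePreserving_snd (μ := (volume : Measure ℝ))
        (ν := (volume : Measure ℝ))).comp
        (measurePreserving_prod_add (volume : Measure ℝ) volume).quasiMeasurePreserving).ae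
          (z hk hk0)
    rw [lintegral_congr_ae (g := fun _ => 0) (by
      filter_upwards [h1] with p hp
      rw [hp, ENNReal.ofReal_zero, ENNReal.zero_rpow_of_pos h.a3, mul_zero]),
      lintegral_zero]
    exact zero_le
  obtain ⟨bf, nf⟩ := s8_norm hf hf0
  obtain ⟨bg, ng⟩ := s8_norm hg hg0
  obtain ⟨bk, nk⟩ := s8_norm hk hk0
  have h1 := young_bdc h bf bg bk nf ng nk
  have e1 : ∀ p : ℝ × ℝ, ENNReal.ofReal (f p.1) ^ c1 * ENNReal.ofReal (g p.2) ^ c2 *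
      ENNReal.ofReal (k (p.1 + p.2)) ^ c3 =
      (ENNReal.ofReal (∫ x, f x) ^ c1 * ENNReal.ofReal (∫ x, g x) ^ c2 *
          ENNReal.ofReal (∫ x, k x) ^ c3) *
      (ENNReal.ofReal (f p.1 / ∫ x, f x) ^ c1 * ENNReal.ofReal (g p.2 / ∫ x, g x) ^ c2 *
        ENNReal.ofReal (k (p.1 + p.2) / ∫ x, k x) ^ c3) := by
    intro p
    rw [s8_scale h.a1 hf0 (f p.1), s8_scale h.a2 hg0 (g p.2), s8_scale h.a3 hk0 (k (p.1 + p.2))]
    ring
  rw [lintegral_congr e1, lintegral_const_mul', mul_comm]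
  · gcongr
  · exact ENNReal.mul_ne_top (ENNReal.mul_ne_top (s8_top h.a1 ENNReal.ofReal_ne_top)
      (s8_top h.a2 ENNReal.ofReal_ne_top)) (s8_top h.a3 ENNReal.ofReal_ne_top)

/-- truncation -/
noncomputable def s8_tr (n : ℕ) (f : ℝ → ℝ≥0∞) : ℝ → ℝ≥0∞ :=
  (Icc (-(n : ℝ)) n).indicator fun x => min (f x) n

theorem s8_tr_meas (n : ℕ) {f : ℝ → ℝ≥0∞} (hf : Measurable f) : Measurable (s8_tr n f) :=
  (hf.min measurable_const).indicator measurableSet_Icc

theorem s8_tr_le (n : ℕ) (f : ℝ → ℝ≥0∞) (x : ℝ) : s8_tr n f x ≤ f x := by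
  unfold s8_tr
  by_cases hx : x ∈ Icc (-(n : ℝ)) n
  · rw [indicator_of_mem hx]
    exact min_le_left _ _
  · rw [indicator_of_notMem hx]
    exact zero_le

theorem s8_tr_le' (n : ℕ) (f : ℝ → ℝ≥0∞) (x : ℝ) : s8_tr n f x ≤ n := by
  unfold s8_tr
  by_cases hx : x ∈ Icc (-(n : ℝ)) n
  · rw [indicator_of_mem hx]
    exact min_le_right _ _
  · rw [indicator_of_notMem hx]
    exact zero_le

theorem s8_tr_top (n : ℕ) (f : ℝ → ℝ≥0∞) (x : ℝ) : s8_tr n f x ≠ ⊤ :=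
  ne_top_of_le_ne_top (ENNReal.natCast_ne_top n) (s8_tr_le' n f x)

theorem s8_tr_bdc (n : ℕ) {f : ℝ → ℝ≥0∞} (hf : Measurable f) :
    Bdc (fun x => (s8_tr n f x).toReal) := by
  refine ⟨(s8_tr_meas n hf).ennreal_toReal, fun x => ENNReal.toReal_nonneg, ⟨n, fun x => ?_⟩,
    ⟨Icc (-(n : ℝ)) n, isCompact_Icc, fun x hx => ?_⟩⟩
  · have h1 := ENNReal.toReal_mono (ENNReal.natCast_ne_top n) (s8_tr_le' n f x)
    simpa using h1
  · unfold s8_tr
    rw [indicator_of_notMem hx, ENNReal.toReal_zero]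

theorem s8_tr_int (n : ℕ) {f : ℝ → ℝ≥0∞} (hf : Measurable f) :
    ENNReal.ofReal (∫ x, (s8_tr n f x).toReal) ≤ ∫⁻ x, f x := by
  rw [ofReal_integral_eq_lintegral_ofReal (s8_int (s8_tr_bdc n hf))
    (Eventually.of_forall fun x => ENNReal.toReal_nonneg)]
  refine lintegral_mono fun x => ?_
  rw [ENNReal.ofReal_toReal (s8_tr_top n f x)]
  exact s8_tr_le n f x

theorem s8_tr_lim (f : ℝ → ℝ≥0∞) (x : ℝ) :
    Tendsto (fun n => s8_tr n f x) atTop (𝓝 (f x)) := by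
  have h1 : Tendsto (fun n : ℕ => min (f x) (n : ℝ≥0∞)) atTop (𝓝 (f x)) := by
    have := (tendsto_const_nhds (x := f x)).min ENNReal.tendsto_nat_nhds_top
    rwa [min_eq_left le_top] at this
  refine h1.congr' ?_
  obtain ⟨N, hN⟩ := exists_nat_ge |x|
  filter_upwards [eventually_ge_atTop N] with n hn
  have h2 : x ∈ Icc (-(n : ℝ)) n := by
    have h3 : (N : ℝ) ≤ n := by exact_mod_cast hn
    exact abs_le.1 (hN.trans h3)
  unfold s8_tr
  rw [indicator_of_mem h2]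

/-- the sharp Young inequality on the line -/
theorem YG_real {c1 c2 c3 : ℝ} (h : Wt c1 c2 c3) : YG ℝ c1 c2 c3 (Kc c1 c2 c3) := by
  intro f g k hf hg hk
  have cm : ∀ {c : ℝ}, Measurable fun t : ℝ≥0∞ => t ^ c := fun {c} =>
    ENNReal.continuous_rpow_const.measurable
  have hmeas : ∀ {u v w : ℝ → ℝ≥0∞}, Measurable u → Measurable v → Measurable w →
      Measurable fun p : ℝ × ℝ => u p.1 ^ c1 * v p.2 ^ c2 * w (p.1 + p.2) ^ c3 := by
    intro u v w hu hv hw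
    exact ((cm.comp (hu.comp measurable_fst)).mul (cm.comp (hv.comp measurable_snd))).mul
      (cm.comp (hw.comp (measurable_fst.add measurable_snd)))
  have e1 : ∫⁻ x, ∫⁻ y, f x ^ c1 * g y ^ c2 * k (x + y) ^ c3 =
      ∫⁻ p : ℝ × ℝ, f p.1 ^ c1 * g p.2 ^ c2 * k (p.1 + p.2) ^ c3 := by
    rw [Measure.volume_eq_prod, lintegral_prod _ (hmeas hf hg hk).aemeasurable]
  rw [e1]
  have e2 : ∀ p : ℝ × ℝ, f p.1 ^ c1 * g p.2 ^ c2 * k (p.1 + p.2) ^ c3 ≤
      liminf (fun n => s8_tr n f p.1 ^ c1 * s8_tr n g p.2 ^ c2 *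
        s8_tr n k (p.1 + p.2) ^ c3) atTop := by
    intro p
    by_cases h1 : f p.1 = 0
    · rw [h1, ENNReal.zero_rpow_of_pos h.a1, zero_mul, zero_mul]
      exact zero_le
    by_cases h2 : g p.2 = 0
    · rw [h2, ENNReal.zero_rpow_of_pos h.a2, mul_zero, zero_mul]
      exact zero_le
    by_cases h3 : k (p.1 + p.2) = 0
    · rw [h3, ENNReal.zero_rpow_of_pos h.a3, mul_zero]
      exact zero_le
    have nz : ∀ {c : ℝ} {t : ℝ≥0∞}, 0 < c → t ≠ 0 → t ^ c ≠ 0 := by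
      intro c t hc ht h0
      rcases ENNReal.rpow_eq_zero_iff.1 h0 with h4 | h4
      · exact ht h4.1
      · linarith [h4.2]
    refine (Tendsto.liminf_eq ?_).ge
    refine ENNReal.Tendsto.mul (ENNReal.Tendsto.mul ?_ (Or.inl (nz h.a1 h1)) ?_
      (Or.inl (nz h.a2 h2))) (Or.inl (mul_ne_zero (nz h.a1 h1) (nz h.a2 h2))) ?_
      (Or.inl (nz h.a3 h3))
    · exact (ENNReal.continuous_rpow_const.tendsto _).comp (s8_tr_lim f p.1)
    · exact (ENNReal.continuous_rpow_const.tendsto _).comp (s8_tr_lim g p.2)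
    · exact (ENNReal.continuous_rpow_const.tendsto _).comp (s8_tr_lim k (p.1 + p.2))
  refine (lintegral_mono e2).trans ?_
  refine (lintegral_liminf_le fun n => hmeas (s8_tr_meas n hf) (s8_tr_meas n hg)
    (s8_tr_meas n hk)).trans ?_
  refine liminf_le_of_frequently_le' (Frequently.of_forall fun n => ?_)
  have h1 := s8_bdc h (s8_tr_bdc n hf) (s8_tr_bdc n hg) (s8_tr_bdc n hk)
  simp only [ENNReal.ofReal_toReal (s8_tr_top n _ _)] at h1
  refine h1.trans ?_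
  have b1 := s8_tr_int n hf
  have b2 := s8_tr_int n hg
  have b3 := s8_tr_int n hk
  have := h.a1
  have := h.a2
  have := h.a3
  gcongr

end Pool.Agent.YG
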